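import Mathlib

set_option autoImplicit false

/-!
# Cubes, neighbours and the discrete Loomis-Whitney inequality in `ℤⁿ`
-/

namespace Pool.Agent.Q237.MS

open MeasureTheory Function

section LW

theorem pi_count_finset {d : ℕ} (S : Finset (Fin d → ℤ)) :
    (Measure.pi (fun _ : Fin d => (Measure.count : Measure ℤ))) (S : Set (Fin d → ℤ)) =
      (S.card : ENNReal) := by
  rw [← sum_measure_singleton]
  have h : ∀ x ∈ S, (Measure.pi (fun _ : Fin d => (Measure.count : Measure ℤ))) {x} = 1 := by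
    intro x _
    rw [Measure.pi_singleton]
    simp
  rw [Finset.sum_congr rfl h, Finset.sum_const, nsmul_eq_mul, mul_one]

theorem grid {d : ℕ} (hd : 2 ≤ d) (U : Finset (Fin d → ℤ)) :
    (U.card : ENNReal) ≤ (∑ i : Fin d,
      ((U.image (fun z => update z i 0)).card : ENNReal)) ^ ((d : ℝ) / ((d : ℝ) - 1)) := by
  classical
  have hd1 : (1 : ℝ) < (Fintype.card (Fin d) : ℝ) := by
    rw [Fintype.card_fin]
    exact_mod_cast (by omega : 1 < d)
  have hp : Real.HolderConjugate (Fintype.card (Fin d) : ℝ) ((d : ℝ) / ((d : ℝ) - 1)) := by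
    have h := Real.HolderConjugate.conjExponent hd1
    rw [Real.conjExponent] at h
    convert h using 2 <;> rw [Fintype.card_fin]
  set f : (Fin d → ℤ) → ENNReal := fun x => ∑ i : Fin d,
    Set.indicator ((U.image (fun z => update z i 0) : Finset (Fin d → ℤ)) : Set (Fin d → ℤ))
      (fun _ => (1 : ENNReal)) x with hf
  have hfm : Measurable f := by
    refine Finset.measurable_sum _ fun i _ => ?_
    exact measurable_const.indicator (Finset.measurableSet _)
  have h := lintegral_prod_lintegral_pow_le (fun _ : Fin d => (Measure.count : Measure ℤ)) hp hfm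
  have h1 : ∫⁻ x, f x ∂(Measure.pi (fun _ : Fin d => (Measure.count : Measure ℤ))) =
      ∑ i : Fin d, ((U.image (fun z => update z i 0)).card : ENNReal) := by
    rw [hf, lintegral_finsetSum _ (fun i _ => measurable_const.indicator (Finset.measurableSet _))]
    refine Finset.sum_congr rfl fun i _ => ?_
    rw [lintegral_indicator (Finset.measurableSet _), setLIntegral_const, one_mul,
      pi_count_finset]
  rw [h1] at h
  refine le_trans ?_ h
  have h2 : ∀ x ∈ (U : Set (Fin d → ℤ)), (1 : ENNReal) ≤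
      ∏ i, (∫⁻ xᵢ, f (update x i xᵢ) ∂(Measure.count : Measure ℤ)) ^
        ((1 : ℝ) / ((Fintype.card (Fin d) : ℝ) - 1)) := by
    intro x hx
    refine Finset.one_le_prod' fun i _ => ?_
    have h3 : (1 : ENNReal) ≤ ∫⁻ xᵢ, f (update x i xᵢ) ∂(Measure.count : Measure ℤ) := by
      rw [lintegral_count]
      refine le_trans ?_ (ENNReal.le_tsum (0 : ℤ))
      rw [hf]
      refine le_trans ?_ (Finset.single_le_sum (f := fun j : Fin d => Set.indicator
        ((U.image (fun z => update z j 0) : Finset (Fin d → ℤ)) : Set (Fin d → ℤ))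
        (fun _ => (1 : ENNReal)) (update x i 0)) (fun _ _ => bot_le) (Finset.mem_univ i))
      rw [Set.indicator_of_mem]
      rw [Finset.mem_coe, Finset.mem_image]
      exact ⟨x, hx, rfl⟩
    exact ENNReal.one_le_rpow h3 (by
      have : 0 < (Fintype.card (Fin d) : ℝ) - 1 := by linarith
      positivity)
  calc (U.card : ENNReal)
      = ∫⁻ _x in (U : Set (Fin d → ℤ)), 1
          ∂(Measure.pi (fun _ : Fin d => (Measure.count : Measure ℤ))) := by
        rw [setLIntegral_const, one_mul, pi_count_finset]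
    _ ≤ ∫⁻ x in (U : Set (Fin d → ℤ)),
          ∏ i, (∫⁻ xᵢ, f (update x i xᵢ) ∂(Measure.count : Measure ℤ)) ^
            ((1 : ℝ) / ((Fintype.card (Fin d) : ℝ) - 1))
          ∂(Measure.pi (fun _ : Fin d => (Measure.count : Measure ℤ))) :=
        setLIntegral_mono' (Finset.measurableSet _) h2
    _ ≤ _ := setLIntegral_le_lintegral _ _

/-- the real form -/
theorem grid_real {d : ℕ} (hd : 2 ≤ d) (U : Finset (Fin d → ℤ)) (s : ℕ)
    (hs : ∑ i : Fin d, (U.image (fun z => update z i 0)).card ≤ s) (w : ℝ) (hw : 0 ≤ w)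
    (hU : w ^ d ≤ U.card) : w ^ (d - 1) ≤ s := by
  have h := grid hd U
  have hd1 : (1 : ℝ) < d := by exact_mod_cast (by omega : 1 < d)
  have h1 : (∑ i : Fin d, ((U.image (fun z => update z i 0)).card : ENNReal)) ≤ (s : ENNReal) := by
    exact_mod_cast hs
  have hexp : 0 ≤ (d : ℝ) / ((d : ℝ) - 1) := by
    have : 0 < (d : ℝ) - 1 := by linarith
    positivity
  have h2 : (U.card : ENNReal) ≤ (s : ENNReal) ^ ((d : ℝ) / ((d : ℝ) - 1)) :=
    h.trans (ENNReal.rpow_le_rpow h1 hexp)
  have h3 : (U.card : ℝ) ≤ (s : ℝ) ^ ((d : ℝ) / ((d : ℝ) - 1)) := by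
    have e1 : (s : ENNReal) ^ ((d : ℝ) / ((d : ℝ) - 1)) =
        ENNReal.ofReal ((s : ℝ) ^ ((d : ℝ) / ((d : ℝ) - 1))) := by
      rw [← ENNReal.ofReal_rpow_of_nonneg (Nat.cast_nonneg s) hexp, ENNReal.ofReal_natCast]
    rw [e1, ← ENNReal.ofReal_natCast] at h2
    exact (ENNReal.ofReal_le_ofReal_iff (by positivity)).1 h2
  by_contra hcon
  push Not at hcon
  have h4 : (s : ℝ) ^ ((d : ℝ) / ((d : ℝ) - 1)) < (w ^ (d - 1)) ^ ((d : ℝ) / ((d : ℝ) - 1)) := by
    apply Real.rpow_lt_rpow (Nat.cast_nonneg s) hcon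
    have : 0 < (d : ℝ) - 1 := by linarith
    positivity
  have h5 : (w ^ (d - 1)) ^ ((d : ℝ) / ((d : ℝ) - 1)) = w ^ d := by
    rw [← Real.rpow_natCast w (d - 1), ← Real.rpow_mul hw, ← Real.rpow_natCast w d]
    congr 1
    have : ((d - 1 : ℕ) : ℝ) = (d : ℝ) - 1 := by
      rw [Nat.cast_sub (by omega)]; simp
    rw [this]
    have : (d : ℝ) - 1 ≠ 0 := by linarith
    field_simp
  rw [h5] at h4
  linarith

end LW

variable {n : ℕ}

/-- adjacency in `ℤⁿ`: Euclidean distance one -/
def Adj (x y : Fin n → ℤ) : Prop := ∑ i, (x i - y i) ^ 2 = 1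

theorem Adj.symm {x y : Fin n → ℤ} (h : Adj x y) : Adj y x := by
  unfold Adj at h ⊢
  rw [← h]
  refine Finset.sum_congr rfl fun i _ => ?_
  ring

theorem adj_update (x : Fin n → ℤ) (i : Fin n) (t : ℤ) (ht : (x i - t) ^ 2 = 1) :
    Adj x (update x i t) := by
  unfold Adj
  rw [Finset.sum_eq_single i]
  · rw [update_self]; exact ht
  · intro j _ hj
    rw [update_of_ne hj]; simp
  · intro h; exact absurd (Finset.mem_univ i) h

theorem adj_cases {x y : Fin n → ℤ} (h : Adj x y) :
    ∃ i, (x i - y i) ^ 2 = 1 ∧ ∀ j, j ≠ i → x j = y j := by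
  classical
  unfold Adj at h
  have h1 : ∃ i, (x i - y i) ^ 2 ≠ 0 := by
    by_contra hcon
    push Not at hcon
    rw [Finset.sum_eq_zero (fun i _ => hcon i)] at h
    exact zero_ne_one h
  obtain ⟨i, hi⟩ := h1
  have hi1 : 1 ≤ (x i - y i) ^ 2 := by
    have : 0 < (x i - y i) ^ 2 := lt_of_le_of_ne (sq_nonneg _) (Ne.symm hi)
    omega
  rw [← Finset.add_sum_erase _ _ (Finset.mem_univ i)] at h
  have h2 : ∀ j ∈ Finset.univ.erase i, 0 ≤ (x j - y j) ^ 2 := fun j _ => sq_nonneg _
  have h3 := Finset.sum_nonneg h2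
  have h4 : ∑ j ∈ Finset.univ.erase i, (x j - y j) ^ 2 = 0 := by omega
  refine ⟨i, by omega, fun j hj => ?_⟩
  have h5 := (Finset.sum_eq_zero_iff_of_nonneg h2).1 h4 j (Finset.mem_erase.2 ⟨hj, Finset.mem_univ j⟩)
  have h6 : x j - y j = 0 := by
    rcases pow_eq_zero_iff (two_ne_zero) |>.1 h5 with h
    exact h
  omega

theorem adj_update_iff {x y : Fin n → ℤ} (h : Adj x y) :
    ∃ i, y = update x i (x i + 1) ∨ y = update x i (x i - 1) := by
  obtain ⟨i, h1, h2⟩ := adj_cases h
  refine ⟨i, ?_⟩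
  have h3 : x i - y i = 1 ∨ x i - y i = -1 := by
    have : (x i - y i - 1) * (x i - y i + 1) = 0 := by linear_combination h1
    rcases mul_eq_zero.1 this with h | h
    · left; omega
    · right; omega
  rcases h3 with h3 | h3
  · right
    funext j
    by_cases hj : j = i
    · subst hj; rw [update_self]; omega
    · rw [update_of_ne hj]; exact (h2 j hj).symm
  · left
    funext j
    by_cases hj : j = i
    · subst hj; rw [update_self]; omega
    · rw [update_of_ne hj]; exact (h2 j hj).symm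

/-- the neighbours -/
def nb (x : Fin n → ℤ) : Finset (Fin n → ℤ) :=
  Finset.univ.image (fun i => update x i (x i + 1)) ∪
    Finset.univ.image (fun i => update x i (x i - 1))

theorem mem_nb {x y : Fin n → ℤ} (h : Adj x y) : y ∈ nb x := by
  obtain ⟨i, hi | hi⟩ := adj_update_iff h
  · exact Finset.mem_union_left _ (Finset.mem_image.2 ⟨i, Finset.mem_univ i, hi.symm⟩)
  · exact Finset.mem_union_right _ (Finset.mem_image.2 ⟨i, Finset.mem_univ i, hi.symm⟩)

theorem card_nb (x : Fin n → ℤ) : (nb x).card ≤ 2 * n := by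
  unfold nb
  refine (Finset.card_union_le _ _).trans ?_
  have h1 := Finset.card_image_le (s := (Finset.univ : Finset (Fin n)))
    (f := fun i => update x i (x i + 1))
  have h2 := Finset.card_image_le (s := (Finset.univ : Finset (Fin n)))
    (f := fun i => update x i (x i - 1))
  rw [Finset.card_univ, Fintype.card_fin] at h1 h2
  omega

/-- the cube -/
noncomputable def Q (x : Fin n → ℤ) (r : ℕ) : Finset (Fin n → ℤ) :=
  Fintype.piFinset fun i => Finset.Icc (x i - r) (x i + r)

theorem mem_Q {x y : Fin n → ℤ} {r : ℕ} : y ∈ Q x r ↔ ∀ i, x i - r ≤ y i ∧ y i ≤ x i + r := by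
  unfold Q
  rw [Fintype.mem_piFinset]
  simp only [Finset.mem_Icc]

theorem card_Q (x : Fin n → ℤ) (r : ℕ) : (Q x r).card = (2 * r + 1) ^ n := by
  unfold Q
  rw [Fintype.card_piFinset]
  have h : ∀ i, (Finset.Icc (x i - r) (x i + r)).card = 2 * r + 1 := by
    intro i
    rw [Int.card_Icc]
    omega
  simp [h]

theorem Q_mono {x : Fin n → ℤ} {r s : ℕ} (h : r ≤ s) : Q x r ⊆ Q x s := by
  intro y hy
  rw [mem_Q] at hy ⊢
  intro i
  have := hy i
  omega

/-- a point outside the cube has at most one neighbour in it -/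
theorem unique_nb {x z w w' : Fin n → ℤ} {r : ℕ} (hz : z ∉ Q x r) (hw : w ∈ Q x r)
    (hw' : w' ∈ Q x r) (h : Adj z w) (h' : Adj z w') : w = w' := by
  rw [mem_Q] at hz hw hw'
  push Not at hz
  obtain ⟨i, hi⟩ := hz
  obtain ⟨j, hj, hj2⟩ := adj_cases h
  obtain ⟨k, hk, hk2⟩ := adj_cases h'
  have e1 : i = j := by
    by_contra hne
    have h1 := hj2 i hne
    have h2 := hw i
    have := hi (by omega)
    omega
  have e2 : i = k := by
    by_contra hne
    have h1 := hk2 i hne
    have h2 := hw' i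
    have := hi (by omega)
    omega
  subst e1
  subst e2
  have c1 : z i - w i = 1 ∨ z i - w i = -1 := by
    have : (z i - w i - 1) * (z i - w i + 1) = 0 := by linear_combination hj
    rcases mul_eq_zero.1 this with h | h
    · left; omega
    · right; omega
  have c2 : z i - w' i = 1 ∨ z i - w' i = -1 := by
    have : (z i - w' i - 1) * (z i - w' i + 1) = 0 := by linear_combination hk
    rcases mul_eq_zero.1 this with h | h
    · left; omega
    · right; omega
  have a1 := hw i
  have a2 := hw' i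
  funext m
  by_cases hm : m = i
  · subst hm
    by_cases h0 : x m - r ≤ z m
    · have := hi h0
      omega
    · omega
  · rw [← hj2 m hm, ← hk2 m hm]

theorem nb_mem {x z w : Fin n → ℤ} {r : ℕ} (hw : w ∈ Q x r) (h : Adj z w) : z ∈ Q x (r + 1) := by
  rw [mem_Q] at hw ⊢
  obtain ⟨j, hj, hj2⟩ := adj_cases h
  have c1 : z j - w j = 1 ∨ z j - w j = -1 := by
    have : (z j - w j - 1) * (z j - w j + 1) = 0 := by linear_combination hj
    rcases mul_eq_zero.1 this with h | h
    · left; omega
    · right; omega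
  intro i
  have a1 := hw i
  push_cast
  by_cases hi : i = j
  · subst hi; omega
  · have := hj2 i hi
    omega

end Pool.Agent.Q237.MS
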