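import Mathlib
import Pool.Agent.Q237.MS.Base

set_option autoImplicit false

/-!
# The relative isoperimetric inequality in a cube, and the isoperimetric inequality
-/

namespace Pool.Agent.Q237.MS

open Function Finset

variable {n : ℕ}

/-- a property which changes between `s` and `t` changes between two consecutive integers -/
theorem exists_change (S : ℤ → Prop) : ∀ (m : ℕ) (s t : ℤ), (t - s).natAbs = m → S s → ¬ S t →
    ∃ u, min s t ≤ u ∧ u + 1 ≤ max s t ∧ ((S u ∧ ¬ S (u + 1)) ∨ (¬ S u ∧ S (u + 1))) := by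
  intro m
  induction m with
  | zero =>
    intro s t h h1 h2
    have : t = s := by omega
    subst this
    exact absurd h1 h2
  | succ m ih =>
    intro s t h h1 h2
    rcases lt_or_ge s t with hst | hst
    · by_cases h3 : S (s + 1)
      · obtain ⟨u, a, b, c⟩ := ih (s + 1) t (by omega) h3 h2
        exact ⟨u, by omega, by omega, c⟩
      · exact ⟨s, by omega, by omega, Or.inl ⟨h1, h3⟩⟩
    · by_cases h3 : S (s - 1)
      · obtain ⟨u, a, b, c⟩ := ih (s - 1) t (by omega) h3 h2
        exact ⟨u, by omega, by omega, c⟩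
      · refine ⟨s - 1, by omega, by omega, Or.inr ⟨h3, ?_⟩⟩
        rwa [sub_add_cancel]

/-- the hybrid of `a` and `b` -/
def hyb (a b : Fin n → ℤ) (k : ℕ) : Fin n → ℤ := fun j => if (j : ℕ) < k then b j else a j

theorem hyb_mem {x a b : Fin n → ℤ} {r : ℕ} (ha : a ∈ Q x r) (hb : b ∈ Q x r) (k : ℕ) :
    hyb a b k ∈ Q x r := by
  rw [mem_Q] at *
  intro i
  unfold hyb
  split_ifs
  · exact hb i
  · exact ha i

theorem hyb_inj {a b a' b' : Fin n → ℤ} {k : ℕ} (h1 : hyb a b k = hyb a' b' k)
    (h2 : hyb b a k = hyb b' a' k) : a = a' ∧ b = b' := by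
  constructor
  · funext j
    have e1 := congrFun h1 j
    have e2 := congrFun h2 j
    unfold hyb at e1 e2
    split_ifs at e1 e2
    · exact e2
    · exact e1
  · funext j
    have e1 := congrFun h1 j
    have e2 := congrFun h2 j
    unfold hyb at e1 e2
    split_ifs at e1 e2
    · exact e1
    · exact e2

theorem hyb_succ (a b : Fin n → ℤ) (k : Fin n) :
    hyb a b ((k : ℕ) + 1) = update (hyb a b k) k (b k) := by
  funext j
  by_cases hj : j = k
  · subst hj
    rw [update_self]
    unfold hyb
    rw [if_pos (by omega)]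
  · rw [update_of_ne hj]
    unfold hyb
    have : (j : ℕ) ≠ k := fun h => hj (Fin.ext h)
    by_cases h1 : (j : ℕ) < k
    · rw [if_pos (by omega), if_pos h1]
    · rw [if_neg (by omega), if_neg h1]

theorem exists_hyb (A : Finset (Fin n → ℤ)) (a b : Fin n → ℤ) (ha : a ∈ A) (hb : b ∉ A) :
    ∃ k : Fin n, hyb a b k ∈ A ∧ hyb a b ((k : ℕ) + 1) ∉ A := by
  by_contra hcon
  push Not at hcon
  have h : ∀ k : ℕ, k ≤ n → hyb a b k ∈ A := by
    intro k
    induction k with
    | zero =>
      intro _
      have : hyb a b 0 = a := by funext j; simp [hyb]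
      rw [this]; exact ha
    | succ k ih =>
      intro hk
      exact hcon ⟨k, by omega⟩ (ih (by omega))
  have h2 := h n le_rfl
  have : hyb a b n = b := by funext j; simp [hyb]
  rw [this] at h2
  exact hb h2

open Classical in
/-- the edges between `A` and `B` -/
noncomputable def ed (A B : Finset (Fin n → ℤ)) : Finset ((Fin n → ℤ) × (Fin n → ℤ)) :=
  (A ×ˢ B).filter fun p => Adj p.1 p.2

open Classical in
/-- **Relative isoperimetric inequality** in a cube. -/
theorem relative (x : Fin n → ℤ) (r : ℕ) (A B : Finset (Fin n → ℤ)) (hAB : ∀ y, y ∈ Q x r ↔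
    y ∈ A ∨ y ∈ B) (hd : ∀ y ∈ A, y ∉ B) :
    A.card * B.card ≤ n * ((2 * r + 1) ^ (n + 1) * (ed A B).card) := by
  let line : Fin n → (Fin n → ℤ) → Finset (Fin n → ℤ) := fun k y =>
    (Icc (x k - r) (x k + r)).image (fun t => update y k t)
  have hline : ∀ k y, (line k y).card ≤ 2 * r + 1 := by
    intro k y
    refine card_image_le.trans ?_
    rw [Int.card_Icc]
    omega
  let Z : Fin n → Finset (Fin n → ℤ) := fun k => (ed A B).biUnion fun e => line k e.1
  have hZ : ∀ k, (Z k).card ≤ (2 * r + 1) * (ed A B).card := by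
    intro k
    refine card_biUnion_le.trans ?_
    refine (sum_le_sum fun e _ => hline k e.1).trans ?_
    rw [sum_const, smul_eq_mul, mul_comm]
  have hsub : A ×ˢ B ⊆ (univ : Finset (Fin n)).biUnion fun k =>
      (Q x r ×ˢ Q x r).filter fun p => hyb p.1 p.2 k ∈ Z k := by
    rintro ⟨a, b⟩ hab
    rw [mem_product] at hab
    have haQ : a ∈ Q x r := (hAB a).2 (Or.inl hab.1)
    have hbQ : b ∈ Q x r := (hAB b).2 (Or.inr hab.2)
    obtain ⟨k, hk1, hk2⟩ := exists_hyb A a b hab.1 (fun h => hd b h hab.2)
    rw [mem_biUnion]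
    refine ⟨k, mem_univ k, ?_⟩
    rw [mem_filter, mem_product]
    refine ⟨⟨haQ, hbQ⟩, ?_⟩
    -- the line through the hybrid is mixed
    set z := hyb a b k with hz
    have hzQ : z ∈ Q x r := hyb_mem haQ hbQ k
    rw [hyb_succ, ← hz] at hk2
    have hs : update z k (z k) = z := update_eq_self k z
    obtain ⟨u, u1, u2, u3⟩ := exists_change (fun t => update z k t ∈ A) _ (z k) (b k) rfl
      (by rw [hs]; exact hk1) hk2
    have hzk := (mem_Q.1 hzQ) k
    have hbk := (mem_Q.1 hbQ) k
    have hin : ∀ t, x k - r ≤ t → t ≤ x k + r → update z k t ∈ Q x r := by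
      intro t h1 h2
      rw [mem_Q]
      intro i
      by_cases hi : i = k
      · subst hi; rw [update_self]; exact ⟨h1, h2⟩
      · rw [update_of_ne hi]; exact (mem_Q.1 hzQ) i
    have hu1 := hin u (by omega) (by omega)
    have hu2 := hin (u + 1) (by omega) (by omega)
    have hadj : Adj (update z k u) (update z k (u + 1)) := by
      have := adj_update (update z k u) k (u + 1) (by rw [update_self]; ring)
      rwa [update_idem] at this
    show z ∈ (ed A B).biUnion fun e => line k e.1
    rw [mem_biUnion]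
    have hzl : ∀ t, z ∈ line k (update z k t) := by
      intro t
      show z ∈ (Icc (x k - r) (x k + r)).image (fun s => update (update z k t) k s)
      rw [mem_image]
      refine ⟨z k, mem_Icc.2 hzk, ?_⟩
      rw [update_idem, hs]
    rcases u3 with ⟨c1, c2⟩ | ⟨c1, c2⟩
    · refine ⟨(update z k u, update z k (u + 1)), ?_, hzl u⟩
      rw [ed, mem_filter, mem_product]
      refine ⟨⟨c1, ?_⟩, hadj⟩
      rcases (hAB _).1 hu2 with h | h
      · exact absurd h c2
      · exact h
    · refine ⟨(update z k (u + 1), update z k u), ?_, hzl (u + 1)⟩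
      rw [ed, mem_filter, mem_product]
      refine ⟨⟨c2, ?_⟩, hadj.symm⟩
      rcases (hAB _).1 hu1 with h | h
      · exact absurd h c1
      · exact h
  have hone : ∀ k : Fin n, ((Q x r ×ˢ Q x r).filter fun p => hyb p.1 p.2 k ∈ Z k).card ≤
      (2 * r + 1) ^ (n + 1) * (ed A B).card := by
    intro k
    have h1 : ((Q x r ×ˢ Q x r).filter fun p => hyb p.1 p.2 k ∈ Z k).card ≤
        (Z k ×ˢ Q x r).card := by
      refine card_le_card_of_injOn (fun p => (hyb p.1 p.2 k, hyb p.2 p.1 k)) ?_ ?_
      · rintro ⟨a, b⟩ hp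
        rw [mem_coe, mem_filter, mem_product] at hp
        rw [mem_coe, mem_product]
        exact ⟨hp.2, hyb_mem hp.1.2 hp.1.1 k⟩
      · rintro ⟨a, b⟩ _ ⟨a', b'⟩ _ h
        simp only [Prod.mk.injEq] at h
        obtain ⟨e1, e2⟩ := hyb_inj h.1 h.2
        rw [e1, e2]
    rw [card_product, card_Q] at h1
    refine h1.trans ?_
    have h2 := Nat.mul_le_mul_right ((2 * r + 1) ^ n) (hZ k)
    refine h2.trans (le_of_eq ?_)
    ring
  calc A.card * B.card = (A ×ˢ B).card := (card_product A B).symm
    _ ≤ _ := card_le_card hsub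
    _ ≤ _ := card_biUnion_le
    _ ≤ ∑ _k : Fin n, (2 * r + 1) ^ (n + 1) * (ed A B).card := sum_le_sum fun k _ => hone k
    _ = n * ((2 * r + 1) ^ (n + 1) * (ed A B).card) := by
        rw [sum_const, card_univ, Fintype.card_fin, smul_eq_mul]

/-- points of `A` whose neighbour in direction `i`, sign `s` is outside `A` -/
theorem proj_le_up (A : Finset (Fin n → ℤ)) (i : Fin n) (s : ℤ) (hs : s = 1 ∨ s = -1) :
    (A.image fun z => update z i 0).card ≤ (A.filter fun z => update z i (z i + s) ∉ A).card := by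
  classical
  have h : (A.image fun z => update z i 0) ⊆
      (A.filter fun z => update z i (z i + s) ∉ A).image fun z => update z i 0 := by
    intro p hp
    rw [mem_image] at hp
    obtain ⟨z, hz, rfl⟩ := hp
    -- the extreme point on the line
    have hne : (A.filter fun y => update y i 0 = update z i 0).Nonempty :=
      ⟨z, mem_filter.2 ⟨hz, rfl⟩⟩
    obtain ⟨y, hy, hmax⟩ := Finset.exists_max_image _ (fun y => s * y i) hne
    rw [mem_filter] at hy
    rw [mem_image]
    refine ⟨y, ?_, hy.2⟩
    rw [mem_filter]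
    refine ⟨hy.1, fun hcon => ?_⟩
    have h1 := hmax _ (mem_filter.2 ⟨hcon, by rw [update_idem]; exact hy.2⟩)
    rw [update_self] at h1
    rcases hs with rfl | rfl
    · omega
    · omega
  exact (card_le_card h).trans card_image_le

end Pool.Agent.Q237.MS
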