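import Mathlib
import Pool.Agent.Q237.MS.Rel

set_option autoImplicit false

/-!
# Minimal subgraphs of `ℤⁿ`: comparison with a cube, and growth
-/

namespace Pool.Agent.Q237.MS

open Function Finset

variable {n : ℕ}

/-- the exterior vertex boundary -/
def outer (U : Set (Fin n → ℤ)) : Set (Fin n → ℤ) := {z | z ∉ U ∧ ∃ w ∈ U, Adj z w}

/-- the closure `U ∪ τ U` -/
def clo (U : Set (Fin n → ℤ)) : Set (Fin n → ℤ) := U ∪ outer U

/-- the vertex boundary -/
def vertexBoundary (K : Set (Fin n → ℤ)) : Set (Fin n → ℤ) := {x | x ∈ K ∧ ∃ y, y ∉ K ∧ Adj x y}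

/-- the edges `{x, y}` with `x ∈ U` and `y` in the closure of `U` -/
def edgesOf (U : Set (Fin n → ℤ)) : Set (Sym2 (Fin n → ℤ)) :=
  {e | ∃ x ∈ U, ∃ y ∈ clo U, Adj x y ∧ e = s(x, y)}

/-- the edges with exactly one endpoint in `K` -/
def edgeBoundary (K : Set (Fin n → ℤ)) : Set (Sym2 (Fin n → ℤ)) :=
  {e | ∃ x ∈ K, ∃ y, y ∉ K ∧ Adj x y ∧ e = s(x, y)}

/-- `K` has least perimeter in `U`. -/
def LeastPerimeter (U K : Set (Fin n → ℤ)) : Prop :=
  K ⊆ clo U ∧ ∀ K' : Set (Fin n → ℤ), K' ⊆ clo U → K' ∩ outer U = K ∩ outer U →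
    (edgeBoundary K ∩ edgesOf U).ncard ≤ (edgeBoundary K' ∩ edgesOf U).ncard

/-- minimal subgraphs -/
def IsMinimal (M : Set (Fin n → ℤ)) : Prop :=
  M.Nonempty ∧ M ≠ Set.univ ∧ ∀ U : Set (Fin n → ℤ), U.Finite → LeastPerimeter U (M ∩ clo U)

/-- boundary pairs -/
def PP (K U : Set (Fin n → ℤ)) : Set ((Fin n → ℤ) × (Fin n → ℤ)) :=
  {p | p.1 ∈ K ∧ p.2 ∉ K ∧ Adj p.1 p.2 ∧ (p.1 ∈ U ∨ p.2 ∈ U)}

theorem ncard_PP (K U : Set (Fin n → ℤ)) :
    (edgeBoundary K ∩ edgesOf U).ncard = (PP K U).ncard := by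
  have h : edgeBoundary K ∩ edgesOf U = (fun p : (Fin n → ℤ) × (Fin n → ℤ) => s(p.1, p.2)) ''
      PP K U := by
    ext e
    constructor
    · rintro ⟨⟨x, hx, y, hy, hxy, rfl⟩, ⟨a, ha, b, hb, hab, he⟩⟩
      refine ⟨(x, y), ⟨hx, hy, hxy, ?_⟩, rfl⟩
      rw [Sym2.eq_iff] at he
      rcases he with ⟨h1, h2⟩ | ⟨h1, h2⟩
      · left; show x ∈ U; rw [h1]; exact ha
      · right; show y ∈ U; rw [h2]; exact ha
    · rintro ⟨⟨x, y⟩, ⟨hx, hy, hxy, hU⟩, rfl⟩
      refine ⟨⟨x, hx, y, hy, hxy, rfl⟩, ?_⟩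
      simp only at hx hy hxy hU
      rcases hU with h | h
      · refine ⟨x, h, y, ?_, hxy, rfl⟩
        by_cases hyU : y ∈ U
        · exact Or.inl hyU
        · exact Or.inr ⟨hyU, x, h, hxy.symm⟩
      · refine ⟨y, h, x, ?_, hxy.symm, Sym2.eq_swap⟩
        by_cases hxU : x ∈ U
        · exact Or.inl hxU
        · exact Or.inr ⟨hxU, y, h, hxy⟩
  rw [h, Set.InjOn.ncard_image]
  rintro ⟨x, y⟩ ⟨hx, hy, -, -⟩ ⟨a, b⟩ ⟨ha, hb, -, -⟩ he
  simp only [Sym2.eq_iff] at he
  rcases he with ⟨h1, h2⟩ | ⟨h1, h2⟩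
  · rw [h1, h2]
  · exfalso
    simp only at hx hb
    rw [h1] at hx
    exact hb hx

open Classical in
/-- boundary pairs in a cube -/
noncomputable def PPf (N : Set (Fin n → ℤ)) (x : Fin n → ℤ) (r : ℕ) :
    Finset ((Fin n → ℤ) × (Fin n → ℤ)) :=
  (Q x (r + 1) ×ˢ Q x (r + 1)).filter fun p =>
    p.1 ∈ N ∧ p.2 ∉ N ∧ Adj p.1 p.2 ∧ (p.1 ∈ Q x r ∨ p.2 ∈ Q x r)

theorem coe_PPf (N : Set (Fin n → ℤ)) (x : Fin n → ℤ) (r : ℕ) :
    ((PPf N x r : Finset _) : Set ((Fin n → ℤ) × (Fin n → ℤ))) = PP N (Q x r : Set (Fin n → ℤ)) := by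
  ext ⟨a, b⟩
  simp only [PPf, coe_filter, mem_product, Set.mem_ofPred_eq, PP, mem_coe]
  constructor
  · rintro ⟨_, h⟩
    exact h
  · rintro ⟨h1, h2, h3, h4⟩
    refine ⟨?_, h1, h2, h3, h4⟩
    rcases h4 with h | h
    · exact ⟨Q_mono (Nat.le_succ r) h, nb_mem h h3.symm⟩
    · exact ⟨nb_mem h h3, Q_mono (Nat.le_succ r) h⟩

open Classical in
/-- the points of `N` in the exterior boundary of a cube -/
noncomputable def outf (N : Set (Fin n → ℤ)) (x : Fin n → ℤ) (r : ℕ) : Finset (Fin n → ℤ) :=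
  (Q x (r + 1)).filter fun z => z ∈ N ∧ z ∉ Q x r ∧ ∃ w ∈ Q x r, Adj z w

theorem mem_outf {N : Set (Fin n → ℤ)} {x : Fin n → ℤ} {r : ℕ} {z : Fin n → ℤ} :
    z ∈ outf N x r ↔ z ∈ N ∧ z ∉ Q x r ∧ ∃ w ∈ Q x r, Adj z w := by
  simp only [outf, mem_filter]
  constructor
  · exact fun h => h.2
  · rintro ⟨h1, h2, w, hw, hzw⟩
    exact ⟨nb_mem hw hzw, h1, h2, w, hw, hzw⟩

/-- the comparison property -/
def Comp (N : Set (Fin n → ℤ)) : Prop := ∀ x r, (PPf N x r).card ≤ (outf N x r).card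

theorem PP_inter (M U : Set (Fin n → ℤ)) : PP (M ∩ clo U) U = PP M U := by
  ext ⟨a, b⟩
  simp only [PP, Set.mem_ofPred_eq]
  constructor
  · rintro ⟨h1, h2, h3, h4⟩
    refine ⟨h1.1, fun hb => h2 ⟨hb, ?_⟩, h3, h4⟩
    rcases h4 with h | h
    · by_cases hbU : b ∈ U
      · exact Or.inl hbU
      · exact Or.inr ⟨hbU, a, h, h3.symm⟩
    · exact Or.inl h
  · rintro ⟨h1, h2, h3, h4⟩
    refine ⟨⟨h1, ?_⟩, fun hb => h2 hb.1, h3, h4⟩
    rcases h4 with h | h
    · exact Or.inl h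
    · by_cases haU : a ∈ U
      · exact Or.inl haU
      · exact Or.inr ⟨haU, b, h, h3⟩

theorem comp_of_minimal {M : Set (Fin n → ℤ)} (hM : IsMinimal M) : Comp M := by
  intro x r
  have hmin := (hM.2.2 (Q x r : Set (Fin n → ℤ)) (Q x r).finite_toSet).2
    (M ∩ outer (Q x r : Set (Fin n → ℤ))) (fun z hz => Or.inr hz.2) (by
      ext z
      constructor
      · rintro ⟨⟨h1, h2⟩, _⟩
        exact ⟨⟨h1, Or.inr h2⟩, h2⟩
      · rintro ⟨⟨h1, _⟩, h2⟩
        exact ⟨⟨h1, h2⟩, h2⟩)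
  rw [ncard_PP, ncard_PP, PP_inter, ← coe_PPf, Set.ncard_coe_finset] at hmin
  refine hmin.trans ?_
  rw [← Set.ncard_coe_finset (outf M x r)]
  refine Set.ncard_le_ncard_of_injOn (fun p => p.1) ?_ ?_ (outf M x r).finite_toSet
  · rintro ⟨a, b⟩ ⟨h1, h2, h3, h4⟩
    rw [mem_coe, mem_outf]
    have h5 : b ∈ Q x r := by
      rcases h4 with h | h
      · exact absurd h h1.2.1
      · exact h
    exact ⟨h1.1, h1.2.1, b, h5, h3⟩
  · rintro ⟨a, b⟩ ⟨h1, h2, h3, h4⟩ ⟨a', b'⟩ ⟨h1', h2', h3', h4'⟩ h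
    simp only at h h1 h1' h2 h2' h3 h3' h4 h4'
    subst h
    have h5 : b ∈ Q x r := by
      rcases h4 with h | h
      · exact absurd h h1.2.1
      · exact h
    have h5' : b' ∈ Q x r := by
      rcases h4' with h | h
      · exact absurd h h1.2.1
      · exact h
    rw [unique_nb h1.2.1 h5 h5' h3 h3']

theorem comp_compl {M : Set (Fin n → ℤ)} (hM : IsMinimal M) : Comp Mᶜ := by
  intro x r
  have hmin := (hM.2.2 (Q x r : Set (Fin n → ℤ)) (Q x r).finite_toSet).2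
    ((M ∩ outer (Q x r : Set (Fin n → ℤ))) ∪ (Q x r : Set (Fin n → ℤ))) (by
      rintro z (hz | hz)
      · exact Or.inr hz.2
      · exact Or.inl hz) (by
      ext z
      constructor
      · rintro ⟨h1 | h1, h2⟩
        · exact ⟨⟨h1.1, Or.inr h2⟩, h2⟩
        · exact absurd h1 h2.1
      · rintro ⟨⟨h1, _⟩, h2⟩
        exact ⟨Or.inl ⟨h1, h2⟩, h2⟩)
  rw [ncard_PP, ncard_PP, PP_inter] at hmin
  have hsw : (PPf Mᶜ x r).card = (PP M (Q x r : Set (Fin n → ℤ))).ncard := by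
    rw [← Set.ncard_coe_finset, coe_PPf]
    refine Set.ncard_congr (fun p _ => (p.2, p.1)) ?_ ?_ ?_
    · rintro ⟨a, b⟩ ⟨h1, h2, h3, h4⟩
      exact ⟨not_not.1 h2, h1, h3.symm, h4.symm⟩
    · rintro ⟨a, b⟩ ⟨a', b'⟩ _ _ h
      simp only [Prod.mk.injEq] at h
      rw [h.1, h.2]
    · rintro ⟨a, b⟩ ⟨h1, h2, h3, h4⟩
      exact ⟨(b, a), ⟨h2, fun h => h h1, h3.symm, h4.symm⟩, rfl⟩
  rw [hsw]
  refine hmin.trans ?_
  rw [← Set.ncard_coe_finset (outf Mᶜ x r)]
  refine Set.ncard_le_ncard_of_injOn (fun p => p.2) ?_ ?_ (outf Mᶜ x r).finite_toSet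
  · rintro ⟨a, b⟩ ⟨h1, h2, h3, h4⟩
    simp only at h1 h2 h3 h4
    have hbQ : b ∉ Q x r := fun h => h2 (Or.inr h)
    have haQ : a ∈ Q x r := by
      rcases h4 with h | h
      · exact h
      · exact absurd h hbQ
    rw [mem_coe, mem_outf]
    refine ⟨fun h => h2 (Or.inl ⟨h, hbQ, a, haQ, h3.symm⟩), hbQ, a, haQ, h3.symm⟩
  · rintro ⟨a, b⟩ ⟨h1, h2, h3, h4⟩ ⟨a', b'⟩ ⟨h1', h2', h3', h4'⟩ h
    simp only at h h1 h1' h2 h2' h3 h3' h4 h4'
    subst h
    have hbQ : b ∉ Q x r := fun h => h2 (Or.inr h)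
    have haQ : a ∈ Q x r := by
      rcases h4 with h | h
      · exact h
      · exact absurd h hbQ
    have haQ' : a' ∈ Q x r := by
      rcases h4' with h | h
      · exact h
      · exact absurd h hbQ
    rw [unique_nb hbQ haQ haQ' h3.symm h3'.symm]

open Classical in
/-- the part of `N` in a cube -/
noncomputable def vf (N : Set (Fin n → ℤ)) (x : Fin n → ℤ) (r : ℕ) : Finset (Fin n → ℤ) :=
  (Q x r).filter fun z => z ∈ N

theorem mem_vf {N : Set (Fin n → ℤ)} {x : Fin n → ℤ} {r : ℕ} {z : Fin n → ℤ} :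
    z ∈ vf N x r ↔ z ∈ Q x r ∧ z ∈ N := by
  simp only [vf, mem_filter]

theorem outf_le (N : Set (Fin n → ℤ)) (x : Fin n → ℤ) (r : ℕ) :
    (outf N x r).card + (vf N x r).card ≤ (vf N x (r + 1)).card := by
  classical
  rw [← card_union_of_disjoint]
  · apply card_le_card
    intro z hz
    rw [mem_union] at hz
    rw [mem_vf]
    rcases hz with h | h
    · rw [mem_outf] at h
      obtain ⟨h1, h2, w, hw, hzw⟩ := h
      exact ⟨nb_mem hw hzw, h1⟩
    · rw [mem_vf] at h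
      exact ⟨Q_mono (Nat.le_succ r) h.1, h.2⟩
  · rw [Finset.disjoint_left]
    intro z h1 h2
    rw [mem_outf] at h1
    rw [mem_vf] at h2
    exact h1.2.1 h2.1

open Classical in
theorem sum_proj_le {N : Set (Fin n → ℤ)} (hN : Comp N) (x : Fin n → ℤ) (r : ℕ) :
    ∑ i : Fin n, ((vf N x r).image fun z => update z i 0).card ≤ (outf N x r).card := by
  set A := vf N x r with hA
  let X : Finset ((Fin n → ℤ) × (Fin n → ℤ)) :=
    (Q x r ×ˢ outf N x r).filter fun p => Adj p.1 p.2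
  have hX : X.card ≤ (outf N x r).card := by
    refine card_le_card_of_injOn (fun p => p.2) ?_ ?_
    · rintro ⟨a, b⟩ h
      rw [mem_coe, mem_filter, mem_product] at h
      exact h.1.2
    · rintro ⟨a, b⟩ h ⟨a', b'⟩ h' e
      rw [mem_coe, mem_filter, mem_product] at h h'
      simp only at h h' e
      subst e
      have hb := (mem_outf.1 h.1.2).2.1
      rw [unique_nb hb h.1.1 h'.1.1 h.2.symm h'.2.symm]
  let sg : Bool → ℤ := fun b => if b then 1 else -1
  have hsg : ∀ b, sg b = 1 ∨ sg b = -1 := by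
    intro b; cases b
    · right; rfl
    · left; rfl
  let T : Finset (Σ _ : Fin n × Bool, (Fin n → ℤ)) :=
    (univ : Finset (Fin n × Bool)).sigma fun p => A.filter fun z => update z p.1 (z p.1 + sg p.2) ∉ A
  have hT : T.card ≤ (PPf N x r ∪ X).card := by
    refine card_le_card_of_injOn
      (fun q => (q.2, update q.2 q.1.1 (q.2 q.1.1 + sg q.1.2))) ?_ ?_
    · rintro ⟨⟨i, b⟩, z⟩ h
      rw [mem_coe, mem_sigma, mem_filter] at h
      simp only [mem_univ, true_and] at h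
      obtain ⟨h1, h2⟩ := h
      rw [hA, mem_vf] at h1
      rw [hA, mem_vf] at h2
      have hadj : Adj z (update z i (z i + sg b)) := by
        apply adj_update
        rcases hsg b with e | e
        · rw [e]; ring
        · rw [e]; ring
      rw [mem_coe, mem_union]
      by_cases hN' : update z i (z i + sg b) ∈ N
      · right
        rw [mem_filter, mem_product]
        refine ⟨⟨h1.1, ?_⟩, hadj⟩
        rw [mem_outf]
        exact ⟨hN', fun hq => h2 ⟨hq, hN'⟩, z, h1.1, hadj.symm⟩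
      · left
        have : (z, update z i (z i + sg b)) ∈ PP N (Q x r : Set (Fin n → ℤ)) :=
          ⟨h1.2, hN', hadj, Or.inl h1.1⟩
        rw [← coe_PPf] at this
        exact this
    · rintro ⟨⟨i, b⟩, z⟩ _ ⟨⟨i', b'⟩, z'⟩ _ h
      simp only [Prod.mk.injEq] at h
      obtain ⟨h1, h2⟩ := h
      subst h1
      have h3 := congrFun h2 i
      rw [update_self] at h3
      by_cases hi : i = i'
      · subst hi
        rw [update_self] at h3
        have h4 : sg b = sg b' := by omega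
        have h5 : b = b' := by
          cases b <;> cases b' <;> first | rfl | (simp [sg] at h4)
        rw [h5]
      · rw [update_of_ne hi] at h3
        rcases hsg b with e | e
        · rw [e] at h3; omega
        · rw [e] at h3; omega
  rw [card_sigma, ← univ_product_univ, sum_product] at hT
  have h1 := card_union_le (PPf N x r) X
  have h2 := hN x r
  have h3 : ∑ i : Fin n, 2 * (A.image fun z => update z i 0).card ≤
      ∑ i : Fin n, ∑ b : Bool, (A.filter fun z => update z i (z i + sg b) ∉ A).card := by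
    refine sum_le_sum fun i _ => ?_
    rw [Fintype.sum_bool]
    have e1 := proj_le_up A i (sg true) (hsg true)
    have e2 := proj_le_up A i (sg false) (hsg false)
    omega
  rw [← mul_sum] at h3
  have h4 : ∑ i : Fin n, ∑ b : Bool, (A.filter fun z => update z i (z i + sg b) ∉ A).card ≤
      (PPf N x r ∪ X).card := hT
  omega

theorem powstep {d : ℕ} (hd : 2 ≤ d) {w : ℝ} (hw : 1 ≤ w) :
    (w + 1 / (2 * d)) ^ d ≤ w ^ d + w ^ (d - 1) := by
  have hd0 : (0 : ℝ) < d := by exact_mod_cast (by omega : 0 < d)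
  have hw0 : 0 < w := by linarith
  have h1 : w + 1 / (2 * d) = w * (1 + 1 / (2 * d * w)) := by field_simp
  have h2 : (1 + 1 / (2 * d * w)) ^ d ≤ 1 + 1 / w := by
    have h3 : 1 + 1 / (2 * d * w) ≤ Real.exp (1 / (2 * d * w)) := by
      have := Real.add_one_le_exp (1 / (2 * d * w)); linarith
    have h4 : (1 + 1 / (2 * d * w)) ^ d ≤ (Real.exp (1 / (2 * d * w))) ^ d :=
      pow_le_pow_left₀ (by positivity) h3 d
    have h5 : (Real.exp (1 / (2 * d * w))) ^ d = Real.exp (1 / (2 * w)) := by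
      rw [← Real.exp_nat_mul]
      congr 1
      field_simp
    have h6 : |1 / (2 * w)| ≤ 1 := by
      rw [abs_of_pos (by positivity), div_le_one (by positivity)]
      linarith
    have h7 := Real.abs_exp_sub_one_le h6
    have h8 := le_of_abs_le h7
    rw [abs_of_pos (by positivity)] at h8
    have h9 : 2 * (1 / (2 * w)) = 1 / w := by field_simp
    rw [h9] at h8
    rw [h5] at h4
    linarith
  rw [h1, mul_pow]
  have h10 : w ^ d * (1 + 1 / w) = w ^ d + w ^ (d - 1) := by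
    have : w ^ d = w ^ (d - 1) * w := by
      rw [← pow_succ]; congr 1; omega
    rw [this]
    field_simp
  rw [← h10]
  exact mul_le_mul_of_nonneg_left h2 (by positivity)

theorem growth (hn : 2 ≤ n) {N : Set (Fin n → ℤ)} (hN : Comp N) (x : Fin n → ℤ) (hx : x ∈ N)
    (r : ℕ) : (1 + (r : ℝ) / (2 * n)) ^ n ≤ (vf N x r).card := by
  induction r with
  | zero =>
    have h : 1 ≤ (vf N x 0).card := by
      rw [Nat.one_le_iff_ne_zero, Ne, card_eq_zero]
      intro h0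
      have : x ∈ vf N x 0 := mem_vf.2 ⟨mem_Q.2 (fun i => by simp), hx⟩
      rw [h0] at this
      simp at this
    have h' : (1 : ℝ) ≤ (vf N x 0).card := by exact_mod_cast h
    simpa using h'
  | succ r ih =>
    set w : ℝ := 1 + (r : ℝ) / (2 * n) with hw
    have hw1 : 1 ≤ w := by
      rw [hw]
      have : 0 ≤ (r : ℝ) / (2 * n) := by positivity
      linarith
    have h1 := grid_real hn (vf N x r) (outf N x r).card
      (by convert sum_proj_le hN x r) w (by linarith) ih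
    have h2 := outf_le N x r
    have h3 : ((outf N x r).card : ℝ) + (vf N x r).card ≤ (vf N x (r + 1)).card := by
      exact_mod_cast h2
    have h4 := powstep hn hw1
    have h5 : 1 + ((r + 1 : ℕ) : ℝ) / (2 * n) = w + 1 / (2 * n) := by
      rw [hw]; push_cast; ring
    rw [h5]
    linarith

end Pool.Agent.Q237.MS
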